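import Pool.Agent.X100.Diff.Main

set_option autoImplicit false

open MeasureTheory Set Filter Topology Metric

namespace Pool.Agent.Results.MP_ee4cf4_an.DeltaAndLoomis

variable {X : Type*} [NormedAddCommGroup X] [NormedSpace ℝ X]

/-- The admissible intervals `ℝ`, `[α, ∞)`, `(α, ∞)`. -/
def Admissible (J : Set ℝ) : Prop := J = univ ∨ ∃ α : ℝ, J = Ici α ∨ J = Ioi α

/-- The restriction of `f` to `J` is in `BUC(J, X)`: bounded and uniformly continuous on `J`. -/
def BUC (J : Set ℝ) (f : ℝ → X) : Prop :=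
  UniformContinuousOn f J ∧ ∃ B : ℝ, ∀ t ∈ J, ‖f t‖ ≤ B

/-- The restriction of `f` to `J` is in `A_cos = BUC(J, X) + cos(t²) BUC(J, X)`. -/
def Acos (J : Set ℝ) (f : ℝ → X) : Prop :=
  ∃ u v : ℝ → X, BUC J u ∧ BUC J v ∧ ∀ t ∈ J, f t = u t + Real.cos (t ^ 2) • v t

/-- The restriction of `f` to `J` is in `L¹_loc(J, X)`: Bochner integrable on every compact
subinterval of `J`. -/
def L1loc (J : Set ℝ) (f : ℝ → X) : Prop :=
  ∀ p q : ℝ, Icc p q ⊆ J → IntegrableOn f (Icc p q)

/-- The restriction of `f` to `J` is in `L^∞(J, X)`: Bochner measurable (with respect to Lebesgue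
measure) on `J` and bounded everywhere on `J`. -/
def Linfty (J : Set ℝ) (f : ℝ → X) : Prop :=
  AEStronglyMeasurable f (volume.restrict J) ∧ ∃ B : ℝ, ∀ t ∈ J, ‖f t‖ ≤ B

/-- The difference `(Δ_a f)(t) = f(t + a) - f(t)`. -/
def diff (a : ℝ) (f : ℝ → X) (t : ℝ) : X := f (t + a) - f t

/-- The mean `(M_h f)(t) = h⁻¹ ∫_t^{t+h} f`. -/
noncomputable def mean (h : ℝ) (f : ℝ → X) (t : ℝ) : X := h⁻¹ • ∫ s in t..(t + h), f s

/-- Condition `(Δ)` for a class `A` of functions on `J`. -/
def PropDelta (J : Set ℝ) (A : (ℝ → X) → Prop) : Prop :=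
  ∀ f : ℝ → X, L1loc J f → (∀ a, 0 < a → A (diff a f)) →
    ∀ h, 0 < h → A (fun t => f t - mean h f t)

/-- Condition `(L_b)` (Loomis condition) for a class `A` of functions on `J`. -/
def PropLoomis (J : Set ℝ) (A : (ℝ → X) → Prop) : Prop :=
  ∀ f : ℝ → X, Linfty J f → (∀ a, 0 < a → A (diff a f)) → A f

lemma kern : Pool.Agent.X100.Diff.Kern (𝕜 := ℝ) Real.cos Real.cos (1 / Real.pi) where
  wc := Real.continuous_cos
  ψc := Real.continuous_cos
  w1 := fun x => Real.abs_cos_le_one x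
  ψ1 := fun x => Real.abs_cos_le_one x
  c0 := by positivity
  c1 := by
    have := Real.pi_ne_zero
    field_simp
    exact le_rfl
  i0 := fun x => by
    rw [intervalIntegral.integral_comp_add_left (fun s => Real.cos s) x, integral_cos, add_zero,
      Real.sin_add_two_pi, sub_self]
  i1 := fun x => by
    have h : ∀ s, Real.cos (x + s) * Real.cos (x + s) = Real.cos (x + s) ^ 2 := fun s => by ring
    simp_rw [h]
    rw [intervalIntegral.integral_comp_add_left (fun s => Real.cos s ^ 2) x, integral_cos_sq,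
      add_zero, Real.sin_add_two_pi, Real.cos_add_two_pi]
    have := Real.pi_ne_zero
    simp only [RCLike.ofReal_real_eq_id, id_eq]
    field_simp
    ring

lemma acos_bdd {J : Set ℝ} {f : ℝ → X} (hf : Acos J f) : ∃ B : ℝ, ∀ t ∈ J, ‖f t‖ ≤ B := by
  obtain ⟨u, v, ⟨_, Bu, hBu⟩, ⟨_, Bv, hBv⟩, h⟩ := hf
  refine ⟨Bu + Bv, fun t ht => ?_⟩
  rw [h t ht]
  refine (norm_add_le _ _).trans (add_le_add (hBu t ht) ?_)
  rw [norm_smul, Real.norm_eq_abs]
  calc |Real.cos (t ^ 2)| * ‖v t‖ ≤ 1 * ‖v t‖ :=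
        mul_le_mul_of_nonneg_right (Real.abs_cos_le_one _) (norm_nonneg _)
    _ ≤ Bv := by rw [one_mul]; exact hBv t ht

lemma acos_cont {J : Set ℝ} {f : ℝ → X} (hf : Acos J f) : ContinuousOn f J := by
  obtain ⟨u, v, ⟨hu, _⟩, ⟨hv, _⟩, h⟩ := hf
  refine ContinuousOn.congr (hu.continuousOn.add (ContinuousOn.smul ?_ hv.continuousOn)) h
  exact (Real.continuous_cos.comp (continuous_pow 2)).continuousOn

lemma f_cont {J : Set ℝ} (hJ : Admissible J) {f : ℝ → X} (hf : L1loc J f)
    (hd : ∀ a, 0 < a → Acos J (diff a f)) : ContinuousOn f J :=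
  Pool.Agent.X100.Diff.continuousOn_of_delta hJ hf fun a ha => acos_cont (hd a ha)

theorem delta [CompleteSpace X] {J : Set ℝ} (hJ : Admissible J) :
    PropDelta J (Acos (X := X) J) := by
  intro f hf hd h hh
  have hfc := f_cont hJ hf hd
  have hJ' : Pool.Agent.X100.Diff.IsHalfLine J := hJ
  obtain ⟨U, V, hU, hV, ⟨BV, hBV⟩, hUV⟩ := Pool.Agent.X100.Diff.main hJ' kern hfc
    (fun a ha => by
      obtain ⟨u, v, ⟨hu, _⟩, ⟨hv, _⟩, h⟩ := hd a ha
      exact ⟨u, v, hu, hv, h⟩)
    (fun a ha => by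
      obtain ⟨B, hB⟩ := acos_bdd (hd a ha)
      refine ⟨2 * B, fun t ht r hr0 _ => ?_⟩
      have h1 := hB t ht
      have h2 := hB (t + r) (hJ'.add_mem ht hr0)
      unfold diff at h1 h2
      refine (norm_sub_le _ _).trans ?_
      linarith) h hh
  refine ⟨U, V, ⟨hU, ?_⟩, ⟨hV, BV, hBV⟩, hUV⟩
  obtain ⟨B, hB0, hB⟩ := Pool.Agent.X100.Diff.unif_bound hJ' (fun _ : Unit => f) (fun _ => hfc)
    (fun a ha => by
      obtain ⟨B, hB⟩ := acos_bdd (hd a ha)
      exact ⟨B, fun _ t ht => hB t ht⟩) h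
  refine ⟨B + BV, fun t ht => ?_⟩
  have e : U t = (f t - h⁻¹ • ∫ s in t..(t + h), f s) - Real.cos (t ^ 2) • V t := by
    rw [hUV t ht]; abel
  have h1 : ‖f t - h⁻¹ • ∫ s in t..(t + h), f s‖ ≤ B := by
    have hi : IntervalIntegrable f volume t (t + h) := by
      refine ContinuousOn.intervalIntegrable ?_
      rw [uIcc_of_le (by linarith)]
      exact hfc.mono (hJ'.ordConnected.out ht (hJ'.add_mem ht hh.le))
    have e1 : f t - h⁻¹ • ∫ s in t..(t + h), f s = -(h⁻¹ • ∫ s in t..(t + h), (f s - f t)) := by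
      rw [intervalIntegral.integral_sub hi (by simp), intervalIntegral.integral_const,
        add_sub_cancel_left, smul_sub, smul_smul, inv_mul_cancel₀ hh.ne', one_smul]
      abel
    rw [e1, norm_neg, norm_smul, norm_inv, Real.norm_eq_abs, abs_of_pos hh]
    have h2 : ‖∫ s in t..(t + h), (f s - f t)‖ ≤ B * |t + h - t| := by
      refine intervalIntegral.norm_integral_le_of_norm_le_const fun s hs => ?_
      rw [uIoc_of_le (by linarith)] at hs
      have h3 := hB (s - t) (by linarith [hs.1]) (by linarith [hs.2]) () t ht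
      rwa [add_sub_cancel] at h3
    rw [add_sub_cancel_left, abs_of_pos hh] at h2
    rw [inv_mul_le_iff₀ hh]
    linarith
  rw [e]
  refine (norm_sub_le _ _).trans (add_le_add h1 ?_)
  rw [norm_smul, Real.norm_eq_abs]
  calc |Real.cos (t ^ 2)| * ‖V t‖ ≤ 1 * ‖V t‖ :=
        mul_le_mul_of_nonneg_right (Real.abs_cos_le_one _) (norm_nonneg _)
    _ ≤ BV := by rw [one_mul]; exact hBV t ht

lemma linfty_l1loc {J : Set ℝ} {f : ℝ → X} (hf : Linfty J f) : L1loc J f := by
  intro p q hpq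
  obtain ⟨hm, B, hB⟩ := hf
  have hm' : AEStronglyMeasurable f (volume.restrict (Icc p q)) :=
    hm.mono_measure (Measure.restrict_mono hpq le_rfl)
  exact Integrable.of_bound hm' B ((ae_restrict_iff' measurableSet_Icc).mpr
    (Eventually.of_forall fun x hx => hB x (hpq hx)))

theorem loomis [CompleteSpace X] {J : Set ℝ} (hJ : Admissible J) :
    PropLoomis J (Acos (X := X) J) := by
  intro f hf hd
  have hJ' : Pool.Agent.X100.Diff.IsHalfLine J := hJ
  have hl := linfty_l1loc hf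
  have hfc := f_cont hJ hl hd
  obtain ⟨_, B, hB⟩ := hf
  obtain ⟨u, v, ⟨hu, Bu, hBu⟩, hv, huv⟩ := delta hJ f hl hd 1 one_pos
  have hii : ∀ s ∈ J, ∀ t ∈ J, IntervalIntegrable f volume s t := by
    intro s hs t ht
    refine ContinuousOn.intervalIntegrable (hfc.mono ?_)
    exact hJ'.ordConnected.uIcc_subset hs ht
  have hnorm : ∀ s ∈ J, ∀ t ∈ J, ‖∫ x in s..t, f x‖ ≤ B * |t - s| := by
    intro s hs t ht
    refine intervalIntegral.norm_integral_le_of_norm_le_const fun x hx => hB x ?_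
    exact hJ'.ordConnected.uIcc_subset hs ht (uIoc_subset_uIcc hx)
  have hadd : ∀ t ∈ J, t + 1 ∈ J := fun t ht => hJ'.add_mem ht zero_le_one
  have hmean : BUC J (mean 1 f) := by
    constructor
    · rw [Metric.uniformContinuousOn_iff]
      intro ε hε
      refine ⟨ε / (2 * (|B| + 1)), by positivity, fun s hs t ht hst => ?_⟩
      rw [dist_eq_norm]
      unfold mean
      rw [inv_one, one_smul, one_smul,
        intervalIntegral.integral_interval_sub_interval_comm (hii s hs _ (hadd s hs))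
          (hii t ht _ (hadd t ht)) (hii s hs t ht)]
      refine (norm_sub_le _ _).trans_lt ?_
      have h1 := hnorm s hs t ht
      have h2 := hnorm (s + 1) (hadd s hs) (t + 1) (hadd t ht)
      rw [add_sub_add_right_eq_sub] at h2
      rw [Real.dist_eq, abs_sub_comm, lt_div_iff₀ (by positivity)] at hst
      have h3 : B * |t - s| ≤ |B| * |t - s| :=
        mul_le_mul_of_nonneg_right (le_abs_self B) (abs_nonneg _)
      have h4 := abs_nonneg (t - s)
      nlinarith [abs_nonneg B]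
    · refine ⟨B, fun t ht => ?_⟩
      unfold mean
      rw [inv_one, one_smul]
      have := hnorm t ht (t + 1) (hadd t ht)
      rwa [add_sub_cancel_left, abs_one, mul_one] at this
  refine ⟨fun t => u t + mean 1 f t, v, ⟨Pool.Agent.X100.Diff.ucadd hu hmean.1, ?_⟩, hv,
    fun t ht => ?_⟩
  · obtain ⟨_, Bm, hBm⟩ := hmean
    exact ⟨Bu + Bm, fun t ht => (norm_add_le _ _).trans (add_le_add (hBu t ht) (hBm t ht))⟩
  · have := huv t ht
    simp only at this
    have h2 : f t = (f t - mean 1 f t) + mean 1 f t := by abel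
    rw [h2, this, add_right_comm]

/-- **Affirmative answers to Q1 and Q2.** For every admissible interval `J` and every Banach space
`X`, the space `A_cos = BUC(J, X) + cos(t²) BUC(J, X)` satisfies `(Δ)` and `(L_b)`. -/
theorem result (X : Type*) [NormedAddCommGroup X] [NormedSpace ℝ X] [CompleteSpace X]
    (J : Set ℝ) (hJ : Admissible J) :
    PropDelta J (Acos (X := X) J) ∧ PropLoomis J (Acos (X := X) J) :=
  ⟨delta hJ, loomis hJ⟩

end Pool.Agent.Results.MP_ee4cf4_an.DeltaAndLoomis
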